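import Mathlib
import Pool.Agent.Helper941.Hyp.Fin1b

/-!
There is a computable structure which is computably categorical but not relatively
hyperarithmetically categorical.
-/

namespace Pool.Agent.Results.MP_1b6964_lc.NotRelHyp

open Pool.Agent.Helper941.Hyp

theorem result : ∃ ar : ℕ → ℕ, Computable ar ∧ ∃ A : Struct ar,
    IsComputable A ∧ CompCat A ∧ ¬ RelHypCat A :=
  main1b

end Pool.Agent.Results.MP_1b6964_lc.NotRelHyp
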